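import Mathlib
import Pool.Agent.H64.Pent.Defs

set_option autoImplicit false

/-!
A cycle of length at most five in a permutation graph with `n` matching edges: `n ≤ 5`, or a circuit of
length four or five through two matching edges (MP_a46c6f_co).
-/

namespace Pool.Agent.H76.Pent

open SimpleGraph Pool.Agent.H5.Goddyn Pool.Agent.H98.TC Pool.Agent.H64.Pent

section
variable {n : ℕ}

lemma step {i j k d : ZMod n} (hd : d = 1 ∨ d = -1) (h1 : j = i + d)
    (h2 : k = j - 1 ∨ k = j + 1) (h3 : k ≠ i) : k = j + d := by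
  rcases hd with rfl | rfl <;> rcases h2 with rfl | rfl
  · exact absurd (by rw [h1]; ring) h3
  · rfl
  · ring
  · exact absurd (by rw [h1]; ring) h3

lemma dir {i j : ZMod n} (h : j = i - 1 ∨ j = i + 1) : ∃ d : ZMod n, (d = 1 ∨ d = -1) ∧ j = i + d := by
  rcases h with h | h
  · exact ⟨-1, Or.inr rfl, by rw [h]; ring⟩
  · exact ⟨1, Or.inl rfl, h⟩

lemma le_of_cast {m : ℕ} (hm : 0 < m) {d : ZMod n} (hd : d = 1 ∨ d = -1)
    (h : ((m : ℕ) : ZMod n) * d = 0) : n ≤ m := by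
  have h1 : ((m : ℕ) : ZMod n) = 0 := by
    rcases hd with rfl | rfl
    · simpa using h
    · simpa using h
  exact Nat.le_of_dvd hm ((ZMod.natCast_eq_zero_iff _ _).1 h1)

lemma cyc3 {a b c : ZMod n} (h1 : b = a - 1 ∨ b = a + 1) (h2 : c = b - 1 ∨ c = b + 1)
    (h3 : a = c - 1 ∨ a = c + 1) (n1 : c ≠ a) (n2 : a ≠ b) : n ≤ 5 := by
  obtain ⟨d, hd, e1⟩ := dir h1
  have e2 := step hd e1 h2 n1
  have e3 := step hd e2 h3 n2
  have : ((3 : ℕ) : ZMod n) * d = 0 := by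
    have : a = a + 3 * d := by
      calc a = c + d := e3
        _ = a + 3 * d := by rw [e2, e1]; ring
    push_cast
    linear_combination -this
  exact (le_of_cast (by norm_num) hd this).trans (by norm_num)

lemma cyc4 {a b c e : ZMod n} (h1 : b = a - 1 ∨ b = a + 1) (h2 : c = b - 1 ∨ c = b + 1)
    (h3 : e = c - 1 ∨ e = c + 1) (h4 : a = e - 1 ∨ a = e + 1)
    (n1 : c ≠ a) (n2 : e ≠ b) (n3 : a ≠ c) : n ≤ 5 := by
  obtain ⟨d, hd, e1⟩ := dir h1
  have e2 := step hd e1 h2 n1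
  have e3 := step hd e2 h3 n2
  have e4 := step hd e3 h4 n3
  have : ((4 : ℕ) : ZMod n) * d = 0 := by
    have : a = a + 4 * d := by
      calc a = e + d := e4
        _ = a + 4 * d := by rw [e3, e2, e1]; ring
    push_cast
    linear_combination -this
  exact (le_of_cast (by norm_num) hd this).trans (by norm_num)

lemma cyc5 {a b c e f : ZMod n} (h1 : b = a - 1 ∨ b = a + 1) (h2 : c = b - 1 ∨ c = b + 1)
    (h3 : e = c - 1 ∨ e = c + 1) (h4 : f = e - 1 ∨ f = e + 1) (h5 : a = f - 1 ∨ a = f + 1)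
    (n1 : c ≠ a) (n2 : e ≠ b) (n3 : f ≠ c) (n4 : a ≠ e) : n ≤ 5 := by
  obtain ⟨d, hd, e1⟩ := dir h1
  have e2 := step hd e1 h2 n1
  have e3 := step hd e2 h3 n2
  have e4 := step hd e3 h4 n3
  have e5 := step hd e4 h5 n4
  have : ((5 : ℕ) : ZMod n) * d = 0 := by
    have : a = a + 5 * d := by
      calc a = f + d := e5
        _ = a + 5 * d := by rw [e4, e3, e2, e1]; ring
    push_cast
    linear_combination -this
  exact le_of_cast (by norm_num) hd this

end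

variable {V : Type*}

/-- The conclusion. -/
def Goal (n : ℕ) (p : Equiv.Perm (ZMod n)) : Prop :=
  n ≤ 5 ∨ (∃ i, p (i + 1) = p i + 1 ∨ p (i + 1) = p i - 1) ∨
    (∃ i, p (i + 2) = p i + 1 ∨ p (i + 2) = p i - 1) ∨
    (∃ i, p.symm (i + 2) = p.symm i + 1 ∨ p.symm (i + 2) = p.symm i - 1)

lemma quad {n : ℕ} (p : Equiv.Perm (ZMod n)) {i i' j' j : ZMod n} (h1 : i' = i - 1 ∨ i' = i + 1)
    (h2 : j' = p i') (h3 : j = j' - 1 ∨ j = j' + 1) (h4 : j = p i) : Goal n p := by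
  refine Or.inr (Or.inl ?_)
  rcases h1 with h1 | h1
  · refine ⟨i', ?_⟩
    have : i' + 1 = i := by rw [h1]; ring
    rw [this, ← h4, ← h2]
    exact h3.symm
  · refine ⟨i, ?_⟩
    rw [← h1, ← h2, ← h4]
    rcases h3 with h3 | h3
    · left; rw [h3]; ring
    · right; rw [h3]; ring

/-- Two steps of `+-1` without return give `+-2`. -/
lemma two {n : ℕ} {i j k : ZMod n} (h1 : j = i - 1 ∨ j = i + 1) (h2 : k = j - 1 ∨ k = j + 1)
    (h3 : i ≠ k) : k = i + 2 ∨ i = k + 2 := by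
  obtain ⟨d, hd, e1⟩ := dir h1
  have e2 := step hd e1 h2 h3.symm
  rcases hd with rfl | rfl
  · left; rw [e2, e1]; ring
  · right; rw [e2, e1]; ring

lemma pentx {n : ℕ} (p : Equiv.Perm (ZMod n)) {i k j' j : ZMod n} (h1 : k = i + 2 ∨ i = k + 2)
    (h2 : j' = p k) (h3 : j = j' - 1 ∨ j = j' + 1) (h4 : j = p i) :
    ∃ i, p (i + 2) = p i + 1 ∨ p (i + 2) = p i - 1 := by
  rcases h1 with h1 | h1
  · refine ⟨i, ?_⟩
    rw [← h1, ← h2, ← h4]
    rcases h3 with h3 | h3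
    · left; rw [h3]; ring
    · right; rw [h3]; ring
  · refine ⟨k, ?_⟩
    rw [← h1, ← h2, ← h4]
    exact h3.symm

section
variable {G : SimpleGraph V} {M C₁ C₂ : G.Subgraph} {n : ℕ} {x y : ZMod n → V}
  {p : Equiv.Perm (ZMod n)}

/-- The data of the theorem. -/
structure Dat (G : SimpleGraph V) (M C₁ C₂ : G.Subgraph) (n : ℕ) (x y : ZMod n → V)
    (p : Equiv.Perm (ZMod n)) : Prop where
  h : IsPermutationGraph G M C₁ C₂
  hx : Numb C₁ x
  hy : Numb C₂ y
  hM : ∀ i, M.Adj (x i) (y (p i))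

lemma x_ne_y (D : Dat G M C₁ C₂ n x y p) (i j : ZMod n) : x i ≠ y j := by
  intro e
  have h1 : x i ∈ C₁.verts := by rw [← D.hx.2.1]; exact ⟨i, rfl⟩
  have h2 : x i ∈ C₂.verts := by rw [← D.hy.2.1]; exact ⟨j, e.symm⟩
  exact Set.disjoint_left.1 D.h.disjoint h1 h2

lemma M_unique (D : Dat G M C₁ C₂ n x y p) {a b c : V} (h1 : M.Adj a b) (h2 : M.Adj a c) :
    b = c := by
  have := D.h.perfect.1 (M.edge_vert h1)
  exact this.unique h1 h2

lemma adj_cases (D : Dat G M C₁ C₂ n x y p) {a b : V} (hab : G.Adj a b) :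
    M.Adj a b ∨ C₁.Adj a b ∨ C₂.Adj a b := by
  by_cases hm : M.Adj a b
  · exact Or.inl hm
  · exact Or.inr ((D.h.union a b).1 ⟨hab, hm⟩)

lemma xx (D : Dat G M C₁ C₂ n x y p) {i j : ZMod n} (h : G.Adj (x i) (x j)) :
    j = i - 1 ∨ j = i + 1 := by
  rcases adj_cases D h with h1 | h1 | h1
  · exact absurd (M_unique D h1 (D.hM i)) (x_ne_y D _ _)
  · rcases (D.hx.2.2 i (x j)).1 h1 with h2 | h2
    · exact Or.inl (D.hx.1 h2)
    · exact Or.inr (D.hx.1 h2)
  · have h2 : x i ∈ C₂.verts := C₂.edge_vert h1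
    rw [← D.hy.2.1] at h2
    obtain ⟨k, hk⟩ := h2
    exact absurd hk.symm (x_ne_y D _ _)

lemma yy (D : Dat G M C₁ C₂ n x y p) {i j : ZMod n} (h : G.Adj (y i) (y j)) :
    j = i - 1 ∨ j = i + 1 := by
  rcases adj_cases D h with h1 | h1 | h1
  · have h3 := (D.hM (p.symm i)).symm
    rw [Equiv.apply_symm_apply] at h3
    exact absurd (M_unique D h1 h3).symm (x_ne_y D _ _)
  · have h2 : y i ∈ C₁.verts := C₁.edge_vert h1
    rw [← D.hx.2.1] at h2
    obtain ⟨k, hk⟩ := h2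
    exact absurd hk (x_ne_y D _ _)
  · rcases (D.hy.2.2 i (y j)).1 h1 with h2 | h2
    · exact Or.inl (D.hy.1 h2)
    · exact Or.inr (D.hy.1 h2)

lemma xy (D : Dat G M C₁ C₂ n x y p) {i j : ZMod n} (h : G.Adj (x i) (y j)) : j = p i := by
  rcases adj_cases D h with h1 | h1 | h1
  · exact D.hy.1 (M_unique D h1 (D.hM i))
  · rcases (D.hx.2.2 i (y j)).1 h1 with h2 | h2
    · exact absurd h2.symm (x_ne_y D _ _)
    · exact absurd h2.symm (x_ne_y D _ _)
  · have h2 : x i ∈ C₂.verts := C₂.edge_vert h1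
    rw [← D.hy.2.1] at h2
    obtain ⟨k, hk⟩ := h2
    exact absurd hk.symm (x_ne_y D _ _)

lemma yx (D : Dat G M C₁ C₂ n x y p) {i j : ZMod n} (h : G.Adj (y j) (x i)) : j = p i :=
  xy D h.symm

lemma xyx (D : Dat G M C₁ C₂ n x y p) {i j k : ZMod n} (h1 : G.Adj (x i) (y j))
    (h2 : G.Adj (y j) (x k)) (h3 : x i ≠ x k) : False := by
  have e1 := xy D h1
  have e2 := yx D h2
  exact h3 (congrArg x (p.injective (e1.symm.trans e2)))

lemma yxy (D : Dat G M C₁ C₂ n x y p) {i j k : ZMod n} (h1 : G.Adj (y i) (x j))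
    (h2 : G.Adj (x j) (y k)) (h3 : y i ≠ y k) : False := by
  have e1 := yx D h1
  have e2 := xy D h2
  exact h3 (congrArg y (e1.trans e2.symm))

lemma covers [Finite V] (D : Dat G M C₁ C₂ n x y p) (v : V) : (∃ i, v = x i) ∨ ∃ j, v = y j := by
  have h1 : v ∈ C₁.verts ∪ C₂.verts := by
    have hne : (G.neighborSet v).ncard = 3 := D.h.cubic v
    by_contra hv
    have hsub : G.neighborSet v ⊆ {w | M.Adj v w} := by
      intro w hw
      rcases adj_cases D hw with h1 | h1 | h1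
      · exact h1
      · exact absurd (Or.inl (C₁.edge_vert h1)) hv
      · exact absurd (Or.inr (C₂.edge_vert h1)) hv
    have h2 : (G.neighborSet v).ncard ≤ 1 := by
      rw [Set.ncard_le_one (Set.toFinite _)]
      intro a ha b hb
      exact M_unique D (hsub ha) (hsub hb)
    omega
  rcases h1 with h1 | h1
  · rw [← D.hx.2.1] at h1
    obtain ⟨i, hi⟩ := h1
    exact Or.inl ⟨i, hi.symm⟩
  · rw [← D.hy.2.1] at h1
    obtain ⟨i, hi⟩ := h1
    exact Or.inr ⟨i, hi.symm⟩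

lemma q4 (D : Dat G M C₁ C₂ n x y p) {i i' j' j : ZMod n} (h1 : G.Adj (x i) (x i'))
    (h2 : G.Adj (x i') (y j')) (h3 : G.Adj (y j') (y j)) (h4 : G.Adj (y j) (x i)) : Goal n p :=
  quad p (xx D h1) (xy D h2) (yy D h3) (yx D h4)

lemma q5x (D : Dat G M C₁ C₂ n x y p) {i i' i'' j' j : ZMod n} (h1 : G.Adj (x i) (x i'))
    (h2 : G.Adj (x i') (x i'')) (hne : x i ≠ x i'') (h3 : G.Adj (x i'') (y j'))
    (h4 : G.Adj (y j') (y j)) (h5 : G.Adj (y j) (x i)) : Goal n p :=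
  Or.inr (Or.inr (Or.inl (pentx p (two (xx D h1) (xx D h2) (fun e => hne (congrArg x e)))
    (xy D h3) (yy D h4) (yx D h5))))

lemma q5y (D : Dat G M C₁ C₂ n x y p) {i i' i'' j' j : ZMod n} (h1 : G.Adj (y i) (y i'))
    (h2 : G.Adj (y i') (y i'')) (hne : y i ≠ y i'') (h3 : G.Adj (y i'') (x j'))
    (h4 : G.Adj (x j') (x j)) (h5 : G.Adj (x j) (y i)) : Goal n p :=
  Or.inr (Or.inr (Or.inr (pentx p.symm (two (yy D h1) (yy D h2) (fun e => hne (congrArg y e)))
    (by rw [yx D h3, Equiv.symm_apply_apply]) (xx D h4)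
    (by rw [xy D h5, Equiv.symm_apply_apply]))))

lemma main3 [Finite V] (D : Dat G M C₁ C₂ n x y p) {a b c : V} (h1 : G.Adj a b) (h2 : G.Adj b c)
    (h3 : G.Adj c a) : Goal n p := by
  have n1 : a ≠ c := h3.ne.symm
  have n2 : b ≠ a := h1.ne.symm
  have n3 : c ≠ b := h2.ne.symm
  rcases covers D a with ⟨a, rfl⟩ | ⟨a, rfl⟩ <;> rcases covers D b with ⟨b, rfl⟩ | ⟨b, rfl⟩ <;>
    rcases covers D c with ⟨c, rfl⟩ | ⟨c, rfl⟩
  · exact Or.inl (cyc3 (xx D h1) (xx D h2) (xx D h3) (fun e => n1 (congrArg x e.symm))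
      (fun e => n2 (congrArg x e.symm)))
  · exact (xyx D h2 h3 n2).elim
  · exact (xyx D h1 h2 n1).elim
  · exact (yxy D h3 h1 n3).elim
  · exact (xyx D h3 h1 n3).elim
  · exact (yxy D h1 h2 n1).elim
  · exact (yxy D h2 h3 n2).elim
  · exact Or.inl (cyc3 (yy D h1) (yy D h2) (yy D h3) (fun e => n1 (congrArg y e.symm))
      (fun e => n2 (congrArg y e.symm)))

lemma main4 [Finite V] (D : Dat G M C₁ C₂ n x y p) {a b c e : V} (h1 : G.Adj a b)
    (h2 : G.Adj b c) (h3 : G.Adj c e) (h4 : G.Adj e a) (n1 : a ≠ c) (n2 : b ≠ e) : Goal n p := by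
  have m1 := n1.symm
  have m2 := n2.symm
  rcases covers D a with ⟨a, rfl⟩ | ⟨a, rfl⟩ <;> rcases covers D b with ⟨b, rfl⟩ | ⟨b, rfl⟩ <;>
    rcases covers D c with ⟨c, rfl⟩ | ⟨c, rfl⟩ <;> rcases covers D e with ⟨e, rfl⟩ | ⟨e, rfl⟩ <;>
    first
    | exact Or.inl (cyc4 (xx D h1) (xx D h2) (xx D h3) (xx D h4) (fun t => m1 (congrArg x t))
        (fun t => m2 (congrArg x t)) (fun t => n1 (congrArg x t)))
    | exact Or.inl (cyc4 (yy D h1) (yy D h2) (yy D h3) (yy D h4) (fun t => m1 (congrArg y t))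
        (fun t => m2 (congrArg y t)) (fun t => n1 (congrArg y t)))
    | exact (xyx D h1 h2 n1).elim
    | exact (xyx D h2 h3 n2).elim
    | exact (xyx D h3 h4 m1).elim
    | exact (xyx D h4 h1 m2).elim
    | exact (yxy D h1 h2 n1).elim
    | exact (yxy D h2 h3 n2).elim
    | exact (yxy D h3 h4 m1).elim
    | exact (yxy D h4 h1 m2).elim
    | exact q4 D h1 h2 h3 h4
    | exact q4 D h2 h3 h4 h1
    | exact q4 D h3 h4 h1 h2
    | exact q4 D h4 h1 h2 h3

lemma main5 [Finite V] (D : Dat G M C₁ C₂ n x y p) {a b c e f : V} (h1 : G.Adj a b)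
    (h2 : G.Adj b c) (h3 : G.Adj c e) (h4 : G.Adj e f) (h5 : G.Adj f a) (n1 : a ≠ c) (n2 : b ≠ e)
    (n3 : c ≠ f) (n4 : e ≠ a) (n5 : f ≠ b) : Goal n p := by
  rcases covers D a with ⟨a, rfl⟩ | ⟨a, rfl⟩ <;> rcases covers D b with ⟨b, rfl⟩ | ⟨b, rfl⟩ <;>
    rcases covers D c with ⟨c, rfl⟩ | ⟨c, rfl⟩ <;> rcases covers D e with ⟨e, rfl⟩ | ⟨e, rfl⟩ <;>
    rcases covers D f with ⟨f, rfl⟩ | ⟨f, rfl⟩ <;>
    first
    | exact Or.inl (cyc5 (xx D h1) (xx D h2) (xx D h3) (xx D h4) (xx D h5)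
        (fun t => n1 (congrArg x t.symm)) (fun t => n2 (congrArg x t.symm))
        (fun t => n3 (congrArg x t.symm)) (fun t => n4 (congrArg x t.symm)))
    | exact Or.inl (cyc5 (yy D h1) (yy D h2) (yy D h3) (yy D h4) (yy D h5)
        (fun t => n1 (congrArg y t.symm)) (fun t => n2 (congrArg y t.symm))
        (fun t => n3 (congrArg y t.symm)) (fun t => n4 (congrArg y t.symm)))
    | exact (xyx D h1 h2 n1).elim
    | exact (xyx D h2 h3 n2).elim
    | exact (xyx D h3 h4 n3).elim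
    | exact (xyx D h4 h5 n4).elim
    | exact (xyx D h5 h1 n5).elim
    | exact (yxy D h1 h2 n1).elim
    | exact (yxy D h2 h3 n2).elim
    | exact (yxy D h3 h4 n3).elim
    | exact (yxy D h4 h5 n4).elim
    | exact (yxy D h5 h1 n5).elim
    | exact q5x D h1 h2 n1 h3 h4 h5
    | exact q5x D h2 h3 n2 h4 h5 h1
    | exact q5x D h3 h4 n3 h5 h1 h2
    | exact q5x D h4 h5 n4 h1 h2 h3
    | exact q5x D h5 h1 n5 h2 h3 h4
    | exact q5y D h1 h2 n1 h3 h4 h5
    | exact q5y D h2 h3 n2 h4 h5 h1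
    | exact q5y D h3 h4 n3 h5 h1 h2
    | exact q5y D h4 h5 n4 h1 h2 h3
    | exact q5y D h5 h1 n5 h2 h3 h4

end

theorem short_cycle {V : Type*} [Finite V] (G : SimpleGraph V) (M C₁ C₂ : G.Subgraph)
    (h : IsPermutationGraph G M C₁ C₂) {n : ℕ} (hn : 3 ≤ n) (x y : ZMod n → V)
    (p : Equiv.Perm (ZMod n)) (hx : Numb C₁ x) (hy : Numb C₂ y)
    (hM : ∀ i, M.Adj (x i) (y (p i))) (v : V) (c : G.Walk v v) (hc : c.IsCycle)
    (hl : c.length ≤ 5) :
    n ≤ 5 ∨ (∃ i, p (i + 1) = p i + 1 ∨ p (i + 1) = p i - 1) ∨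
      (∃ i, p (i + 2) = p i + 1 ∨ p (i + 2) = p i - 1) ∨
      (∃ i, p.symm (i + 2) = p.symm i + 1 ∨ p.symm (i + 2) = p.symm i - 1) := by
  have D : Dat G M C₁ C₂ n x y p := ⟨h, hx, hy, hM⟩
  show Goal n p
  have h3 := hc.three_le_length
  have hend : c.getVert c.length = c.getVert 0 := by simp
  have hadj : ∀ i, i < c.length → G.Adj (c.getVert i) (c.getVert (i + 1)) :=
    fun i hi => c.adj_getVert_succ hi
  have hinj : ∀ i j, i < c.length → j < c.length → i ≠ j → c.getVert i ≠ c.getVert j := by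
    intro i j hi hj hij e
    exact hij (hc.getVert_injOn' (by simp only [Set.mem_ofPred_eq]; omega)
      (by simp only [Set.mem_ofPred_eq]; omega) e)
  generalize c.getVert = g at hend hadj hinj
  generalize c.length = l at hend hadj hinj h3 hl
  interval_cases l
  · have a0 := hadj 0 (by norm_num)
    have a1 := hadj 1 (by norm_num)
    have a2 := hadj 2 (by norm_num)
    rw [show 2 + 1 = 3 from rfl, hend] at a2
    exact main3 D a0 a1 a2
  · have a0 := hadj 0 (by norm_num)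
    have a1 := hadj 1 (by norm_num)
    have a2 := hadj 2 (by norm_num)
    have a3 := hadj 3 (by norm_num)
    rw [show 3 + 1 = 4 from rfl, hend] at a3
    exact main4 D a0 a1 a2 a3 (hinj 0 2 (by norm_num) (by norm_num) (by norm_num))
      (hinj 1 3 (by norm_num) (by norm_num) (by norm_num))
  · have a0 := hadj 0 (by norm_num)
    have a1 := hadj 1 (by norm_num)
    have a2 := hadj 2 (by norm_num)
    have a3 := hadj 3 (by norm_num)
    have a4 := hadj 4 (by norm_num)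
    rw [show 4 + 1 = 5 from rfl, hend] at a4
    exact main5 D a0 a1 a2 a3 a4 (hinj 0 2 (by norm_num) (by norm_num) (by norm_num))
      (hinj 1 3 (by norm_num) (by norm_num) (by norm_num))
      (hinj 2 4 (by norm_num) (by norm_num) (by norm_num))
      (hinj 3 0 (by norm_num) (by norm_num) (by norm_num))
      (hinj 4 1 (by norm_num) (by norm_num) (by norm_num))

end Pool.Agent.H76.Pent
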